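import Pool.Agent.H24.Ans2

set_option autoImplicit false

namespace Pool.Agent.Results.MP_c99d13_lc.NPComplete
open Pool.Agent.H11.PT Pool.Agent.H24.Ans

theorem result : NPComplete AS := main

end Pool.Agent.Results.MP_c99d13_lc.NPComplete
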